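import Pool.Agent.K7.H81.PD.Stm

set_option autoImplicit false

/-! Project PD (helper81), job BDY (helper85). -/

noncomputable section

open MeasureTheory Filter Topology
open scoped ContDiff

namespace Pool.Agent.K7.H85.PDBDY

open Pool.Agent.K7.H81.PD

variable {N : ℕ} {Ω : Set (E N)}

lemma pd_smooth {f : E N → ℝ} (h : ContDiff ℝ ∞ f) (i : Fin N) : ContDiff ℝ ∞ (pd i f) := by
  unfold pd
  exact (h.fderiv_right (m := ∞) (by simp)).clm_apply contDiff_const

lemma lap_cont {f : E N → ℝ} (h : ContDiff ℝ ∞ f) : Continuous (lap f) := by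
  unfold lap
  exact continuous_finset_sum _ fun i _ => (pd_smooth (pd_smooth h i) i).continuous

lemma pd_sub {f g : E N → ℝ} (h : ContDiff ℝ ∞ f) (h' : ContDiff ℝ ∞ g) (i : Fin N) :
    pd i (fun y => f y - g y) = fun x => pd i f x - pd i g x := by
  funext x
  unfold pd
  rw [fderiv_fun_sub ((h.differentiable (by simp)) x) ((h'.differentiable (by simp)) x)]
  rfl

lemma lap_sub {f g : E N → ℝ} (h : ContDiff ℝ ∞ f) (h' : ContDiff ℝ ∞ g) (x : E N) :
    lap (fun y => f y - g y) x = lap f x - lap g x := by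
  unfold lap
  rw [← Finset.sum_sub_distrib]
  refine Finset.sum_congr rfl fun i _ => ?_
  rw [pd_sub h h', pd_sub (pd_smooth h i) (pd_smooth h' i)]

lemma pd_congr {f g : E N → ℝ} {x : E N} (h : f =ᶠ[𝓝 x] g) (i : Fin N) : pd i f =ᶠ[𝓝 x] pd i g := by
  filter_upwards [h.fderiv (𝕜 := ℝ)] with y hy
  unfold pd
  rw [hy]

lemma lap_congr {f g : E N → ℝ} {x : E N} (h : f =ᶠ[𝓝 x] g) : lap f x = lap g x := by
  unfold lap
  refine Finset.sum_congr rfl fun i _ => ?_
  exact (pd_congr (pd_congr h i) i).eq_of_nhds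

/-- continuous functions are integrable on bounded sets for finite measures -/
lemma int_cont (hb : Bornology.IsBounded Ω) (hΩ : IsOpen Ω) (m : Measure (E N)) [IsFiniteMeasure m]
    {f : E N → ℝ} (hf : Continuous f) : IntegrableOn f Ω m := by
  have hK : IsCompact (closure Ω) := hb.isCompact_closure
  exact (hf.continuousOn.integrableOn_compact hK).mono_set subset_closure

lemma bdd_cont (hb : Bornology.IsBounded Ω) {f : E N → ℝ} (hf : Continuous f) :
    ∃ C, ∀ x ∈ Ω, |f x| ≤ C := by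
  have hK : IsCompact (closure Ω) := hb.isCompact_closure
  obtain ⟨C, hC⟩ := hK.exists_bound_of_continuousOn hf.continuousOn
  exact ⟨C, fun x hx => hC x (subset_closure hx)⟩

lemma int_mul (hb : Bornology.IsBounded Ω) (hΩ : IsOpen Ω) {w f : E N → ℝ}
    (hw : IntegrableOn w Ω) (hf : Continuous f) : IntegrableOn (fun x => w x * f x) Ω := by
  obtain ⟨C, hC⟩ := bdd_cont hb hf
  refine Integrable.mul_bdd (c := C) hw hf.aestronglyMeasurable ?_
  rw [ae_restrict_iff' hΩ.measurableSet]
  exact Eventually.of_forall fun x hx => hC x hx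

section cut

variable (S : ℝ → ℝ) (τ : ℝ)

/-- `τ S (s / τ)` -/
def Th (s : ℝ) : ℝ := τ * S (s / τ)

variable {S τ}

lemma Th_smooth (hS : ContDiff ℝ ∞ S) : ContDiff ℝ ∞ (Th S τ) := by
  unfold Th
  exact contDiff_const.mul (hS.comp (contDiff_id.div_const τ))

lemma Th_deriv (hS : ContDiff ℝ ∞ S) (hτ : 0 < τ) (s : ℝ) : deriv (Th S τ) s = deriv S (s / τ) := by
  have h1 : HasDerivAt S (deriv S (s / τ)) (s / τ) :=
    ((hS.differentiable (by simp)) (s / τ)).hasDerivAt
  have h2 : HasDerivAt (fun s : ℝ => s / τ) (1 / τ) s := (hasDerivAt_id s).div_const τ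
  have h3 := (h1.comp s h2).const_mul τ
  have h4 : HasDerivAt (Th S τ) (τ * (deriv S (s / τ) * (1 / τ))) s := h3
  rw [h4.deriv]
  field_simp

lemma Th_deriv2 (hS : ContDiff ℝ ∞ S) (hτ : 0 < τ) (s : ℝ) :
    deriv (deriv (Th S τ)) s = deriv (deriv S) (s / τ) / τ := by
  have h0 : deriv (Th S τ) = fun s => deriv S (s / τ) := funext fun s => Th_deriv hS hτ s
  rw [h0]
  have hS' : ContDiff ℝ ∞ (deriv S) := hS.deriv'
  have h1 : HasDerivAt (deriv S) (deriv (deriv S) (s / τ)) (s / τ) :=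
    ((hS'.differentiable (by simp)) (s / τ)).hasDerivAt
  have h2 : HasDerivAt (fun s : ℝ => s / τ) (1 / τ) s := (hasDerivAt_id s).div_const τ
  have h3 := h1.comp s h2
  have h4 : HasDerivAt (fun s => deriv S (s / τ)) (deriv (deriv S) (s / τ) * (1 / τ)) s := h3
  rw [h4.deriv]
  ring

end cut

theorem t : StBdy := by
  classical
  rintro hMax hLpc ⟨S, hS, hS1, hS2, hS3, hS4, hS5, hS6⟩ N Ω m ν w hN hΩ hb hm hν hw hw0 hR hH ζ hζ hζl
  have hζ0 := (hMax N Ω ζ hN hΩ hb hζ hζl).1
  have hmono : Monotone S := monotone_of_deriv_nonneg (hS.differentiable (by simp)) fun t => (hS1 t).1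
  have hS0 : S 0 = 0 := hS3 0 (by norm_num)
  have hSle : ∀ s, S s ≤ 2 := by
    intro s
    rcases le_total s 2 with h | h
    · exact (hmono h).trans hS6
    · rw [hS4 s h]
      exact hS6
  -- the estimate for every `τ`
  have key : ∀ τ : ℝ, 0 < τ →
      |(∫ x in Ω, ζ x ∂m) + (∫ x in Ω, w x * lap ζ x) - ∫ x in Ω, ζ x ∂ν| ≤
        2 * τ * ((m.real Ω) + (ν.real Ω)) := by
    intro τ hτ
    have hT : ContDiff ℝ ∞ (Th S τ) := Th_smooth hS
    set G : E N → ℝ := fun x => Th S τ (ζ x) with hG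
    have hGs : ContDiff ℝ ∞ G := hT.comp hζ.1
    have hG0 : ∀ x ∈ Ω, 0 ≤ G x := by
      intro x hx
      refine mul_nonneg hτ.le ?_
      rw [← hS0]
      exact hmono (div_nonneg (hζ0 x hx) hτ.le)
    have hG2 : ∀ x, G x ≤ 2 * τ := by
      intro x
      have := hSle (ζ x / τ)
      show τ * S (ζ x / τ) ≤ 2 * τ
      nlinarith
    have hGl : ∀ x ∈ Ω, lap G x ≤ 0 := by
      intro x hx
      rw [hG, hLpc N (Th S τ) ζ x hT hζ.1, Th_deriv hS hτ, Th_deriv2 hS hτ]
      have h1 := (hS1 (ζ x / τ)).1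
      have h2 := hS2 (ζ x / τ)
      have h3 := hζl x hx
      have h4 : 0 ≤ ∑ i, pd i ζ x ^ 2 := Finset.sum_nonneg fun i _ => sq_nonneg _
      have h5 : deriv (deriv S) (ζ x / τ) / τ ≤ 0 := div_nonpos_of_nonpos_of_nonneg h2 hτ.le
      have h6 := mul_nonpos_of_nonneg_of_nonpos h1 h3
      have h7 := mul_nonpos_of_nonpos_of_nonneg h5 h4
      linarith
    have hGT : Tst Ω G := by
      refine ⟨hGs, fun x hx => ?_⟩
      show τ * S (ζ x / τ) = 0
      rw [hζ.2 x hx, zero_div, hS0, mul_zero]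
    -- the test function
    set ψ : E N → ℝ := Ω.indicator fun x => ζ x - G x with hψ
    have hzero : ∀ x, ζ x ≤ τ → ζ x - G x = 0 := by
      intro x hx
      show ζ x - τ * S (ζ x / τ) = 0
      rw [hS3 _ ((div_le_one hτ).2 hx)]
      field_simp
      ring
    have hψout : ∀ x, x ∉ Ω → ∀ᶠ y in 𝓝 x, ψ y = 0 := by
      intro x hx
      by_cases hc : x ∈ closure Ω
      · have hfr : x ∈ frontier Ω := by
          rw [hΩ.frontier_eq]
          exact ⟨hc, hx⟩
        have h1 : ∀ᶠ y in 𝓝 x, ζ y < τ :=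
          hζ.1.continuous.continuousAt.eventually (gt_mem_nhds (by rw [hζ.2 x hfr]; exact hτ))
        filter_upwards [h1] with y hy
        rw [hψ, Set.indicator_apply]
        split_ifs
        · exact hzero y hy.le
        · rfl
      · filter_upwards [isClosed_closure.isOpen_compl.mem_nhds hc] with y hy
        rw [hψ]
        exact Set.indicator_of_notMem (fun h => hy (subset_closure h)) _
    have hψin : ∀ x ∈ Ω, ψ =ᶠ[𝓝 x] fun y => ζ y - G y := by
      intro x hx
      filter_upwards [hΩ.mem_nhds hx] with y hy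
      rw [hψ]
      exact Set.indicator_of_mem hy _
    have hψs : ContDiff ℝ ∞ ψ := by
      rw [contDiff_iff_contDiffAt]
      intro x
      by_cases hx : x ∈ Ω
      · exact (hζ.1.sub hGs).contDiffAt.congr_of_eventuallyEq (hψin x hx)
      · exact contDiffAt_const.congr_of_eventuallyEq (f := fun _ => (0 : ℝ)) (hψout x hx)
    set K : Set (E N) := closure Ω ∩ {x | τ ≤ ζ x} with hK
    have hKc : IsCompact K := hb.isCompact_closure.inter_right (isClosed_le continuous_const hζ.1.continuous)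
    have hKΩ : K ⊆ Ω := by
      rintro x ⟨h1, h2⟩
      by_contra h
      have hfr : x ∈ frontier Ω := by
        rw [hΩ.frontier_eq]
        exact ⟨h1, h⟩
      have h3 := hζ.2 x hfr
      have h4 : τ ≤ ζ x := h2
      linarith
    have hsup : Function.support ψ ⊆ K := by
      intro x hx
      rw [Function.mem_support] at hx
      by_cases h : x ∈ Ω
      · refine ⟨subset_closure h, ?_⟩
        show τ ≤ ζ x
        by_contra h2
        apply hx
        rw [hψ, Set.indicator_of_mem h]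
        exact hzero x (not_le.1 h2).le
      · exact absurd (hψout x h).self_of_nhds hx
    have hψc : Cci Ω ψ := by
      refine ⟨hψs, HasCompactSupport.of_support_subset_isCompact hKc hsup, ?_⟩
      exact (closure_minimal hsup hKc.isClosed).trans hKΩ
    -- the equation
    have h1 := hR.eq ψ hψc
    have e1 : ∀ (μ : Measure (E N)) [IsFiniteMeasure μ], ∫ x in Ω, ψ x ∂μ =
        (∫ x in Ω, ζ x ∂μ) - ∫ x in Ω, G x ∂μ := by
      intro μ _
      rw [← integral_sub (int_cont hb hΩ μ hζ.1.continuous) (int_cont hb hΩ μ hGs.continuous)]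
      refine setIntegral_congr_fun hΩ.measurableSet fun x hx => ?_
      show ψ x = ζ x - G x
      rw [hψ, Set.indicator_of_mem hx]
    have e2 : ∫ x in Ω, w x * lap ψ x = (∫ x in Ω, w x * lap ζ x) - ∫ x in Ω, w x * lap G x := by
      rw [← integral_sub (int_mul hb hΩ hw (lap_cont hζ.1)) (int_mul hb hΩ hw (lap_cont hGs))]
      refine setIntegral_congr_fun hΩ.measurableSet fun x hx => ?_
      show w x * lap ψ x = w x * lap ζ x - w x * lap G x
      rw [lap_congr (hψin x hx), lap_sub hζ.1 hGs]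
      ring
    rw [e1 m, e1 ν, e2] at h1
    have h2 := hH G hGT hGl
    have h3 : ∫ x in Ω, w x * lap G x ≤ 0 := by
      refine setIntegral_nonpos hΩ.measurableSet fun x hx => ?_
      exact mul_nonpos_of_nonneg_of_nonpos (hw0 x) (hGl x hx)
    have h4 : ∀ (μ : Measure (E N)) [IsFiniteMeasure μ], 0 ≤ ∫ x in Ω, G x ∂μ ∧
        ∫ x in Ω, G x ∂μ ≤ 2 * τ * μ.real Ω := by
      intro μ _
      refine ⟨setIntegral_nonneg hΩ.measurableSet hG0, ?_⟩
      have h5 : ∫ x in Ω, G x ∂μ ≤ ∫ x in Ω, 2 * τ ∂μ :=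
        setIntegral_mono (int_cont hb hΩ μ hGs.continuous) (integrableOn_const (measure_ne_top _ _)) hG2
      rw [setIntegral_const, smul_eq_mul] at h5
      linarith
    obtain ⟨a1, a2⟩ := h4 m
    obtain ⟨b1, b2⟩ := h4 ν
    rw [abs_le]
    have hm0 : 0 ≤ m.real Ω := measureReal_nonneg
    have hν0 : 0 ≤ ν.real Ω := measureReal_nonneg
    have hτm : 0 ≤ 2 * τ * m.real Ω := by positivity
    have hτν : 0 ≤ 2 * τ * ν.real Ω := by positivity
    constructor <;> nlinarith
  -- let `τ → 0`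
  have hle : |(∫ x in Ω, ζ x ∂m) + (∫ x in Ω, w x * lap ζ x) - ∫ x in Ω, ζ x ∂ν| ≤ 0 := by
    refine le_of_forall_pos_le_add fun ε hε => ?_
    set M : ℝ := m.real Ω + ν.real Ω with hM
    have hM0 : 0 ≤ M := add_nonneg measureReal_nonneg measureReal_nonneg
    have h1 := key (ε / (2 * (M + 1))) (by positivity)
    refine h1.trans ?_
    rw [zero_add]
    have : 2 * (ε / (2 * (M + 1))) * M = ε * (M / (M + 1)) := by field_simp
    rw [this]
    have h2 : M / (M + 1) ≤ 1 := (div_le_one (by linarith)).2 (by linarith)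
    nlinarith
  have := abs_nonpos_iff.1 hle
  linarith

end Pool.Agent.K7.H85.PDBDY
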