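import Mathlib

set_option autoImplicit false

namespace Pool.Agent.K7.H85.Biorth

variable {𝕜 : Type*} [RCLike 𝕜] {X : Type*} [NormedAddCommGroup X] [NormedSpace 𝕜 X]

open Finset Classical in
/-- One step of the construction of a biorthogonal system. -/
noncomputable def step (y : ℕ → X) (n : ℕ) (G : ℕ → X × (X →L[𝕜] 𝕜)) : ℕ → X × (X →L[𝕜] 𝕜) :=
  Function.update G n
    (y n - ∑ k ∈ range n, (G k).2 (y n) • (G k).1,
      if h : y n - ∑ k ∈ range n, (G k).2 (y n) • (G k).1 ≠ 0 then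
        (SeparatingDual.exists_eq_one (R := 𝕜) h).choose -
          ∑ k ∈ range n, (SeparatingDual.exists_eq_one (R := 𝕜) h).choose (G k).1 • (G k).2
      else 0)

/-- Prefixes of the biorthogonal system. -/
noncomputable def pre (y : ℕ → X) : ℕ → (ℕ → X × (X →L[𝕜] 𝕜))
  | 0 => fun _ => 0
  | n + 1 => step y n (pre y n)

/-- The biorthogonal system. -/
noncomputable def g (y : ℕ → X) (k : ℕ) : X × (X →L[𝕜] 𝕜) := pre y (k + 1) k

lemma pre_eq (y : ℕ → X) : ∀ n k, k < n → (pre y n k : X × (X →L[𝕜] 𝕜)) = g y k := by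
  intro n
  induction n with
  | zero => intro k hk; omega
  | succ n ih =>
    intro k hk
    rcases Nat.lt_succ_iff_lt_or_eq.1 hk with h | h
    · have : (pre y (n + 1) k : X × (X →L[𝕜] 𝕜)) = pre y n k := by
        simp only [pre, step]
        rw [Function.update_of_ne (by omega)]
      rw [this, ih k h]
    · subst h; rfl

lemma g_fst (y : ℕ → X) (n : ℕ) :
    (g y n : X × (X →L[𝕜] 𝕜)).1 =
      y n - ∑ k ∈ Finset.range n, (g y k : X × (X →L[𝕜] 𝕜)).2 (y n) • (g y k : X × (X →L[𝕜] 𝕜)).1 := by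
  have h : (g y n : X × (X →L[𝕜] 𝕜)).1 =
      y n - ∑ k ∈ Finset.range n, (pre y n k : X × (X →L[𝕜] 𝕜)).2 (y n) • (pre y n k : X × (X →L[𝕜] 𝕜)).1 := by
    simp only [g, pre, step, Function.update_self]
  rw [h]
  congr 1
  refine Finset.sum_congr rfl fun k hk => ?_
  rw [pre_eq y n k (Finset.mem_range.1 hk)]

lemma g_snd (y : ℕ → X) (n : ℕ) :
    ((g y n : X × (X →L[𝕜] 𝕜)).1 = 0 ∧ (g y n : X × (X →L[𝕜] 𝕜)).2 = 0) ∨
    ∃ ψ : X →L[𝕜] 𝕜, ψ (g y n : X × (X →L[𝕜] 𝕜)).1 = 1 ∧ (g y n : X × (X →L[𝕜] 𝕜)).2 =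
      ψ - ∑ k ∈ Finset.range n, ψ (g y k : X × (X →L[𝕜] 𝕜)).1 • (g y k : X × (X →L[𝕜] 𝕜)).2 := by
  have h1 : (g y n : X × (X →L[𝕜] 𝕜)).1 =
      y n - ∑ k ∈ Finset.range n, (pre y n k : X × (X →L[𝕜] 𝕜)).2 (y n) • (pre y n k : X × (X →L[𝕜] 𝕜)).1 := by
    simp only [g, pre, step, Function.update_self]
  by_cases h : y n - ∑ k ∈ Finset.range n, (pre y n k : X × (X →L[𝕜] 𝕜)).2 (y n) •
      (pre y n k : X × (X →L[𝕜] 𝕜)).1 ≠ 0
  · right
    refine ⟨(SeparatingDual.exists_eq_one (R := 𝕜) h).choose, ?_, ?_⟩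
    · rw [h1]
      exact (SeparatingDual.exists_eq_one (R := 𝕜) h).choose_spec
    · have h2 : (g y n : X × (X →L[𝕜] 𝕜)).2 = (SeparatingDual.exists_eq_one (R := 𝕜) h).choose -
          ∑ k ∈ Finset.range n, (SeparatingDual.exists_eq_one (R := 𝕜) h).choose
            (pre y n k : X × (X →L[𝕜] 𝕜)).1 • (pre y n k : X × (X →L[𝕜] 𝕜)).2 := by
        simp only [g, pre, step, Function.update_self]
        rw [dif_pos h]
      rw [h2]
      congr 1
      refine Finset.sum_congr rfl fun k hk => ?_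
      rw [pre_eq y n k (Finset.mem_range.1 hk)]
  · left
    constructor
    · rw [h1]; exact not_not.1 h
    · simp only [g, pre, step, Function.update_self]
      rw [dif_neg h]

lemma biorth (y : ℕ → X) : ∀ n, (∀ k < n, (g y n : X × (X →L[𝕜] 𝕜)).2 (g y k : X × (X →L[𝕜] 𝕜)).1 = 0 ∧
      (g y k : X × (X →L[𝕜] 𝕜)).2 (g y n : X × (X →L[𝕜] 𝕜)).1 = 0) ∧
      (((g y n : X × (X →L[𝕜] 𝕜)).1 = 0 ∧ (g y n : X × (X →L[𝕜] 𝕜)).2 = 0) ∨
        (g y n : X × (X →L[𝕜] 𝕜)).2 (g y n : X × (X →L[𝕜] 𝕜)).1 = 1) := by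
  intro n
  induction n using Nat.strong_induction_on with
  | _ n ih =>
    -- pairwise orthogonality of the previous ones
    have hprev : ∀ j k, j < n → k < n → j ≠ k →
        (g y j : X × (X →L[𝕜] 𝕜)).2 (g y k : X × (X →L[𝕜] 𝕜)).1 = 0 := by
      intro j k hj hk hjk
      rcases lt_or_gt_of_ne hjk with h | h
      · exact ((ih k hk).1 j h).2
      · exact ((ih j hj).1 k h).1
    have hA : ∀ k < n, (g y k : X × (X →L[𝕜] 𝕜)).2 (g y n : X × (X →L[𝕜] 𝕜)).1 = 0 := by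
      intro k hk
      rw [g_fst y n, map_sub, map_sum]
      rw [Finset.sum_eq_single k]
      · rcases (ih k hk).2 with h | h
        · rw [h.2]; simp
        · rw [map_smul, h]; simp
      · intro j hj hjk
        rw [map_smul, hprev k j hk (Finset.mem_range.1 hj) hjk.symm, smul_zero]
      · intro h; exact absurd (Finset.mem_range.2 hk) h
    rcases g_snd (𝕜 := 𝕜) y n with h | ⟨ψ, hψ, h⟩
    · refine ⟨fun k hk => ⟨by rw [h.2]; simp, hA k hk⟩, Or.inl h⟩
    · refine ⟨fun k hk => ⟨?_, hA k hk⟩, Or.inr ?_⟩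
      · rw [h, sub_apply, sum_apply]
        rw [Finset.sum_eq_single k]
        · rcases (ih k hk).2 with h' | h'
          · rw [h'.1]; simp
          · rw [smul_apply, h']; simp
        · intro j hj hjk
          rw [smul_apply, hprev j k (Finset.mem_range.1 hj) hk hjk, smul_zero]
        · intro h; exact absurd (Finset.mem_range.2 hk) h
      · have h2 : (g y n : X × (X →L[𝕜] 𝕜)).2 (g y n : X × (X →L[𝕜] 𝕜)).1 =
            ψ (g y n : X × (X →L[𝕜] 𝕜)).1 - ∑ k ∈ Finset.range n, ψ (g y k : X × (X →L[𝕜] 𝕜)).1 •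
              (g y k : X × (X →L[𝕜] 𝕜)).2 (g y n : X × (X →L[𝕜] 𝕜)).1 := by
          conv_lhs => rw [h]
          rw [sub_apply, sum_apply]
          rfl
        rw [h2, hψ, Finset.sum_eq_zero, sub_zero]
        intro k hk
        rw [hA k (Finset.mem_range.1 hk), smul_zero]

lemma span_g (y : ℕ → X) (n : ℕ) :
    y n ∈ Submodule.span 𝕜 (Set.range fun k => (g y k : X × (X →L[𝕜] 𝕜)).1) := by
  have h := g_fst (𝕜 := 𝕜) y n
  have h2 : y n = (g y n : X × (X →L[𝕜] 𝕜)).1 +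
      ∑ k ∈ Finset.range n, (g y k : X × (X →L[𝕜] 𝕜)).2 (y n) • (g y k : X × (X →L[𝕜] 𝕜)).1 := by
    rw [h]; abel
  rw [h2]
  refine Submodule.add_mem _ (Submodule.subset_span ⟨n, rfl⟩) (Submodule.sum_mem _ fun k _ => ?_)
  exact Submodule.smul_mem _ _ (Submodule.subset_span ⟨k, rfl⟩)

/-- In every separable normed space there is a (possibly degenerate) biorthogonal sequence with dense
span: vectors `x n` and functionals `φ n`, with `φ n (x m) = 0` for `m ≠ n`, and for every `n` either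
`φ n (x n) = 1`, or both `x n` and `φ n` vanish. -/
theorem exists_biorth (𝕜 : Type*) [RCLike 𝕜] (X : Type*) [NormedAddCommGroup X] [NormedSpace 𝕜 X]
    [TopologicalSpace.SeparableSpace X] :
    ∃ (x : ℕ → X) (φ : ℕ → X →L[𝕜] 𝕜), (∀ n m, m ≠ n → φ n (x m) = 0) ∧
      (∀ n, (x n = 0 ∧ φ n = 0) ∨ φ n (x n) = 1) ∧
      Dense (Submodule.span 𝕜 (Set.range x) : Set X) := by
  let y := TopologicalSpace.denseSeq X
  refine ⟨fun n => (g y n : X × (X →L[𝕜] 𝕜)).1, fun n => (g y n : X × (X →L[𝕜] 𝕜)).2, ?_, ?_, ?_⟩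
  · intro n m hmn
    rcases lt_or_gt_of_ne hmn with h | h
    · exact ((biorth y n).1 m h).1
    · exact ((biorth y m).1 n h).2
  · exact fun n => (biorth y n).2
  · refine (TopologicalSpace.denseRange_denseSeq X).mono ?_
    rintro _ ⟨n, rfl⟩
    exact span_g y n

end Pool.Agent.K7.H85.Biorth
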