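import Mathlib

set_option autoImplicit false

/-!
# Convex-cyclic operators: definitions and basic facts
-/

namespace Pool.Agent.K7.H85.CC

variable {𝕜 : Type*} [RCLike 𝕜] {X : Type*} [NormedAddCommGroup X] [NormedSpace 𝕜 X]

/-- `co(Orb(T, x))`: all finite convex combinations `∑ c_k T^k x`, `c_k ≥ 0` real, `∑ c_k = 1`. -/
def coOrb (T : X →L[𝕜] X) (x : X) : Set X :=
  {y | ∃ c : ℕ →₀ ℝ, (∀ k, 0 ≤ c k) ∧ (c.sum fun _ r => r) = 1 ∧
    y = c.sum fun k r => (r : 𝕜) • (T ^ k) x}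

/-- `T` is convex-cyclic: for some vector `x` the convex hull of the orbit of `x` is dense. -/
def ConvexCyclic (T : X →L[𝕜] X) : Prop := ∃ x : X, Dense (coOrb T x)

lemma orb_mem (T : X →L[𝕜] X) (x : X) (k : ℕ) : (T ^ k) x ∈ coOrb T x := by
  refine ⟨Finsupp.single k 1, ?_, ?_, ?_⟩
  · intro j
    rw [Finsupp.single_apply]
    split_ifs <;> norm_num
  · simp
  · rw [Finsupp.sum_single_index] <;> simp

lemma coOrb_comb (T : X →L[𝕜] X) (x : X) {y z : X} (hy : y ∈ coOrb T x) (hz : z ∈ coOrb T x)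
    {a b : ℝ} (ha : 0 ≤ a) (hb : 0 ≤ b) (hab : a + b = 1) :
    (a : 𝕜) • y + (b : 𝕜) • z ∈ coOrb T x := by
  obtain ⟨c, hc0, hc1, rfl⟩ := hy
  obtain ⟨d, hd0, hd1, rfl⟩ := hz
  refine ⟨a • c + b • d, fun k => ?_, ?_, ?_⟩
  · simp only [Finsupp.add_apply, Finsupp.smul_apply, smul_eq_mul]
    exact add_nonneg (mul_nonneg ha (hc0 k)) (mul_nonneg hb (hd0 k))
  · rw [Finsupp.sum_add_index' (fun _ => rfl) (fun _ _ _ => rfl), Finsupp.sum_smul_index' (fun _ => rfl),
      Finsupp.sum_smul_index' (fun _ => rfl), ← Finsupp.smul_sum, ← Finsupp.smul_sum, hc1, hd1]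
    simpa using hab
  · rw [Finsupp.sum_add_index' (by simp) (by intro k r s; push_cast; rw [add_smul]),
      Finsupp.sum_smul_index' (by simp), Finsupp.sum_smul_index' (by simp),
      Finsupp.smul_sum, Finsupp.smul_sum]
    congr 1 <;>
    · refine Finset.sum_congr rfl fun k _ => ?_
      simp only [smul_eq_mul, RCLike.ofReal_mul]
      rw [mul_smul]

/-- Hahn-Banach criterion: if for every nonzero functional the real parts along the orbit are
unbounded above, then the convex hull of the orbit is dense. -/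
lemma dense_of_unbounded (T : X →L[𝕜] X) (x : X)
    (h : ∀ f : X →L[𝕜] 𝕜, f ≠ 0 → ∀ u : ℝ, ∃ k : ℕ, u ≤ RCLike.re (f ((T ^ k) x))) :
    Dense (coOrb T x) := by
  let _ : NormedSpace ℝ X := NormedSpace.restrictScalars ℝ 𝕜 X
  have _ : IsScalarTower ℝ 𝕜 X := RestrictScalars.isScalarTower ℝ 𝕜 X
  have hsmul : ∀ (r : ℝ) (y : X), r • y = (r : 𝕜) • y := by
    intro r y
    rw [← algebraMap_smul 𝕜 r y]
  have hconv : Convex ℝ (coOrb T x) := by
    intro y hy z hz a b ha hb hab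
    rw [hsmul, hsmul]
    exact coOrb_comb T x hy hz ha hb hab
  intro y
  by_contra hy
  obtain ⟨f, u, h1, h2⟩ := RCLike.geometric_hahn_banach_closed_point (𝕜 := 𝕜) hconv.closure
    isClosed_closure hy
  have hf : f ≠ 0 := by
    rintro rfl
    have h3 := h1 x (subset_closure (by simpa using orb_mem T x 0))
    simp at h3 h2
    linarith
  obtain ⟨k, hk⟩ := h f hf u
  exact absurd (h1 _ (subset_closure (orb_mem T x k))) (not_lt.2 hk)

lemma hasSum_eval (A : ℕ → X →L[𝕜] X) (hA : Summable A) (y : X) :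
    HasSum (fun n => A n y) ((∑' n, A n) y) := by
  have h : HasSum A (∑' n, A n) := hA.hasSum
  exact h.mapL (ContinuousLinearMap.apply 𝕜 X y)

lemma hasSum_re' {f : ℕ → 𝕜} {b : 𝕜} (h : HasSum f b) :
    HasSum (fun n => RCLike.re (f n)) (RCLike.re b) := by
  exact h.mapL (RCLike.reCLM (K := 𝕜))

lemma hasSum_map {Y : Type*} [NormedAddCommGroup Y] [NormedSpace 𝕜 Y] (T : X →L[𝕜] Y) {f : ℕ → X} {b : X}
    (h : HasSum f b) : HasSum (fun n => T (f n)) (T b) := h.mapL T

end Pool.Agent.K7.H85.CC
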