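import Pool.Agent.K7.H87.EX.Stm2

set_option autoImplicit false

/-! Project EX2 (helper87), job SOLV (helper85). -/

namespace Pool.Agent.K7.H85.EXSOLV

open Pool.Agent.K7.H87.EX
open scoped commutatorElement

section basic

variable {K : Type} [Group K] (N : Subgroup K) (hN : N.Normal)

lemma cj_mul (g : K) (a b : N) : cj N hN g (a * b) = cj N hN g a * cj N hN g b := by
  apply Subtype.ext
  show g * ((a : K) * b) * g⁻¹ = (g * a * g⁻¹) * (g * b * g⁻¹)
  group

lemma cj_cj (g h : K) (a : N) : cj N hN (g * h) a = cj N hN g (cj N hN h a) := by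
  apply Subtype.ext
  show (g * h) * (a : K) * (g * h)⁻¹ = g * (h * a * h⁻¹) * g⁻¹
  group

lemma cj_one (a : N) : cj N hN 1 a = a := by
  apply Subtype.ext
  show 1 * (a : K) * 1⁻¹ = a
  group

lemma cj_one' (g : K) : cj N hN g 1 = 1 := by
  apply Subtype.ext
  show g * ((1 : N) : K) * g⁻¹ = ((1 : N) : K)
  simp

end basic

theorem t (hLev : StLev) (hDrop : StDrop) (hCom : StCom) (hInv : StInv) : StSolv := by
  intro K _ N hN _ hl hr hc hf hZ
  obtain ⟨L1, L2, L3, L4, M, L5⟩ := hLev N hl hr hf
  have hI := hInv K N hN hl hr hc hf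
  have hD := hDrop K N hN hl hr hc hf
  have hCm := hCom N hl hr hf
  have lev1 : lev (1 : N) = 0 := (L1 1).2 rfl
  -- invariance of the level
  have hlc : ∀ (g : K) (a : N), lev (cj N hN g a) ≤ lev a := by
    intro g a
    by_contra h
    obtain ⟨C, hC, h1, h2⟩ := (L4 _ _).1 (not_le.1 h)
    exact h2 (hI g C hC a h1)
  -- drop for all elements, with truncated subtraction
  have hD' : ∀ g ∈ commutator K, ∀ (a : N) (j : ℕ), lev a ≤ j → lev (a⁻¹ * cj N hN g a) ≤ j - 1 := by
    intro g hg a j hj
    by_cases ha : a = 1
    · rw [ha, cj_one', inv_one, one_mul, lev1]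
      exact Nat.zero_le _
    · have := hD g hg a ha
      omega
  have hC' : ∀ (u v : N) (j : ℕ), lev u ≤ j → lev v ≤ j → lev (u⁻¹ * v⁻¹ * u * v) ≤ j - 1 := by
    intro u v j hu hv
    by_cases h1 : u = 1
    · have : u⁻¹ * v⁻¹ * u * v = 1 := by rw [h1]; group
      rw [this, lev1]
      exact Nat.zero_le _
    by_cases h2 : v = 1
    · have : u⁻¹ * v⁻¹ * u * v = 1 := by rw [h2]; group
      rw [this, lev1]
      exact Nat.zero_le _
    rcases le_total (lev v) (lev u) with h | h
    · have := hCm u v h1 h
      omega
    · have h3 := hCm v u h2 h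
      have h4 : u⁻¹ * v⁻¹ * u * v = (v⁻¹ * u⁻¹ * v * u)⁻¹ := by group
      rw [h4, L3]
      omega
  -- the main claim
  have main : ∀ i : ℕ, ∀ g ∈ derivedSeries K (i + 1), ∀ a : N, lev (a⁻¹ * cj N hN g a) ≤ M - (i + 1) := by
    intro i
    induction i with
    | zero =>
      intro g hg a
      exact hD' g hg a M (L5 a)
    | succ i ih =>
      set j := M - (i + 1) with hj
      have hjj : M - (i + 1 + 1) = j - 1 := by omega
      rw [hjj]
      -- the subgroup
      let W : Subgroup K :=
        { carrier := {g | ∀ a : N, lev (a⁻¹ * cj N hN g a) ≤ j - 1}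
          mul_mem' := by
            intro g g' hg hg' a
            have e : a⁻¹ * cj N hN (g * g') a =
                (a⁻¹ * cj N hN g' a) * ((cj N hN g' a)⁻¹ * cj N hN g (cj N hN g' a)) := by
              rw [cj_cj]
              group
            rw [e]
            exact (L2 _ _).trans (max_le (hg' a) (hg _))
          one_mem' := by
            intro a
            rw [cj_one, inv_mul_cancel, lev1]
            exact Nat.zero_le _
          inv_mem' := by
            intro g hg a
            set b := cj N hN g⁻¹ a with hb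
            have e : a = cj N hN g b := by
              rw [hb, ← cj_cj, mul_inv_cancel, cj_one]
            have e2 : a⁻¹ * b = (b⁻¹ * cj N hN g b)⁻¹ := by
              rw [← e]
              group
            rw [e2, L3]
            exact hg b }
      have hle : derivedSeries K (i + 1 + 1) ≤ W := by
        rw [derivedSeries_succ, Subgroup.commutator_le]
        intro g hg g' hg' a
        have hgc : g ∈ commutator K := by
          rw [← derivedSeries_one]
          exact derivedSeries_antitone K (by omega : 1 ≤ i + 1) hg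
        have hgc' : g' ∈ commutator K := by
          rw [← derivedSeries_one]
          exact derivedSeries_antitone K (by omega : 1 ≤ i + 1) hg'
        set b := cj N hN (g' * g)⁻¹ a with hb
        have e : a = cj N hN (g' * g) b := by
          rw [hb, ← cj_cj, mul_inv_cancel, cj_one]
        have e1 : cj N hN ⁅g, g'⁆ a = cj N hN (g * g') b := by
          rw [e, ← cj_cj]
          congr 1
          rw [commutatorElement_def]
          group
        set u := b⁻¹ * cj N hN g b with hu
        set v := b⁻¹ * cj N hN g' b with hv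
        have lu : lev u ≤ j := ih g hg b
        have lv : lev v ≤ j := ih g' hg' b
        have e2 : cj N hN g b = b * u := by rw [hu]; group
        have e3 : cj N hN g' b = b * v := by rw [hv]; group
        have e4 : a = b * v * u * (u⁻¹ * cj N hN g' u) := by
          rw [e, cj_cj, e2, cj_mul, e3]
          group
        have e5 : cj N hN (g * g') b = b * u * v * (v⁻¹ * cj N hN g v) := by
          rw [cj_cj, e3, cj_mul, e2]
          group
        set s := u⁻¹ * cj N hN g' u with hs
        set r := v⁻¹ * cj N hN g v with hr'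
        have e6 : a⁻¹ * cj N hN ⁅g, g'⁆ a = s⁻¹ * (u⁻¹ * v⁻¹ * u * v) * r := by
          rw [e1, e5, e4]
          group
        rw [e6]
        refine (L2 _ _).trans (max_le ((L2 _ _).trans (max_le ?_ (hC' u v j lu lv))) (hD' g hgc v j lv))
        rw [L3]
        exact hD' g' hgc' u j lu
      intro g hg a
      exact hle hg a
  -- the end
  have hcen : derivedSeries K (M + 1) ≤ Subgroup.center K := by
    intro g hg
    apply hZ
    intro a ha
    have h1 := main M g hg ⟨a, ha⟩
    have h2 : lev ((⟨a, ha⟩ : N)⁻¹ * cj N hN g ⟨a, ha⟩) = 0 := by omega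
    have h3 := (L1 _).1 h2
    have h4 : cj N hN g ⟨a, ha⟩ = ⟨a, ha⟩ := (inv_mul_eq_one.1 h3).symm
    have h5 : g * a * g⁻¹ = a := congrArg Subtype.val h4
    calc a * g = (g * a * g⁻¹) * g := by rw [h5]
      _ = g * a := by group
  refine ⟨⟨M + 2, ?_⟩⟩
  rw [eq_bot_iff, derivedSeries_succ, Subgroup.commutator_le]
  intro g hg g' hg'
  rw [Subgroup.mem_bot, commutatorElement_eq_one_iff_mul_comm]
  exact ((Subgroup.mem_center_iff.1 (hcen hg')) g)

end Pool.Agent.K7.H85.EXSOLV
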