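import Pool.Agent.K7.H72.IP.Stm

set_option autoImplicit false

/-! Project IP (helper72), jobs EXP and ISO (helper85). -/

namespace Pool.Agent.K7.H85.IPEXP

open SimpleGraph Pool.Agent.K7.H72.IP

/-- a matching with `n / 2` edges -/
def mt (n : ℕ) : SimpleGraph (Fin n) where
  Adj a b := a ≠ b ∧ (a : ℕ) / 2 = (b : ℕ) / 2
  symm := ⟨fun _ _ h => ⟨h.1.symm, h.2.symm⟩⟩
  loopless := ⟨fun _ h => h.1 rfl⟩

/-- the edges of `mt n` -/
def ed (n : ℕ) (i : Fin (n / 2)) : Sym2 (Fin n) :=
  s((⟨2 * (i : ℕ), by have := i.2; omega⟩ : Fin n), (⟨2 * (i : ℕ) + 1, by have := i.2; omega⟩ : Fin n))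

lemma ed_inj (n : ℕ) : Function.Injective (ed n) := by
  intro i j h
  unfold ed at h
  rw [Sym2.eq_iff] at h
  apply Fin.ext
  rcases h with ⟨h1, -⟩ | ⟨h1, -⟩
  · have := congrArg Fin.val h1
    simp only at this
    omega
  · have := congrArg Fin.val h1
    simp only at this
    omega

open Classical in
lemma card_mt (n : ℕ) : n / 2 ≤ (mt n).edgeFinset.card := by
  have h1 : (Finset.univ.image (ed n)).card = n / 2 := by
    rw [Finset.card_image_of_injective _ (ed_inj n), Finset.card_univ, Fintype.card_fin]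
  rw [← h1]
  apply Finset.card_le_card
  intro e he
  rw [Finset.mem_image] at he
  obtain ⟨i, -, rfl⟩ := he
  rw [mem_edgeFinset]
  unfold ed
  rw [mem_edgeSet]
  refine ⟨fun h => ?_, ?_⟩
  · have := congrArg Fin.val h
    simp only at this
    omega
  · show 2 * (i : ℕ) / 2 = (2 * (i : ℕ) + 1) / 2
    omega

theorem exP : StExP := by
  classical
  intro V H v w hvw n
  refine ⟨IsContained.extremalNumber_le ⟨⟨⟨some, fun {x y} h => Or.inl ⟨x, y, rfl, rfl, h⟩⟩,
    Option.some_injective V⟩⟩, fun hn => ?_⟩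
  have hfree : (pend H v).Free (mt n) := by
    rintro ⟨φ⟩
    have h1 : (mt n).Adj (φ (some v)) (φ (some w)) := φ.toHom.map_adj (Or.inl ⟨v, w, rfl, rfl, hvw⟩)
    have h2 : (mt n).Adj (φ (some v)) (φ none) := φ.toHom.map_adj (Or.inr (Or.inl ⟨rfl, rfl⟩))
    have h3 : φ (some w) = φ none := by
      apply Fin.ext
      have b1 : (φ (some v) : ℕ) ≠ φ (some w) := fun h => h1.1 (Fin.ext h)
      have b2 : (φ (some v) : ℕ) ≠ φ none := fun h => h2.1 (Fin.ext h)
      have c1 := h1.2
      have c2 := h2.2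
      omega
    exact absurd (φ.injective h3) (by simp)
  have h4 := card_edgeFinset_le_extremalNumber hfree
  rw [Fintype.card_fin] at h4
  have h5 := card_mt n
  have h6 : n / 2 ≤ extremalNumber n (pend H v) := by
    refine h5.trans (le_trans (le_of_eq ?_) h4)
    congr!
  omega

theorem iso : StIso := by
  rintro V W H K ⟨e⟩ ⟨f, hf⟩
  refine ⟨f, fun t ht n hn G hG hK => ?_⟩
  rw [← extremalNumber_congr_right e]
  exact hf t ht n hn G ⟨fun φ => hG.false (e.symm.toEmbedding.trans φ)⟩ hK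

end Pool.Agent.K7.H85.IPEXP
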