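import Pool.Agent.K7.H81.PD.Stm

set_option autoImplicit false

/-! Project PD (helper81), job WSP (helper85). -/

noncomputable section

open MeasureTheory Filter Topology
open scoped ContDiff

namespace Pool.Agent.K7.H85.PDWSP

open Pool.Agent.K7.H81.PD

variable {N : ℕ} {Ω : Set (E N)}

lemma int_cci {ψ : E N → ℝ} (h : Cci Ω ψ) : Integrable ψ volume :=
  h.1.continuous.integrable_of_hasCompactSupport h.2.1

lemma pd_cont {ψ : E N → ℝ} (h : ContDiff ℝ ∞ ψ) (i : Fin N) : Continuous (pd i ψ) := by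
  unfold pd
  exact (h.continuous_fderiv (by simp)).clm_apply continuous_const

lemma int_pd {ψ : E N → ℝ} (h : Cci Ω ψ) (i : Fin N) : Integrable (pd i ψ) volume := by
  refine (pd_cont h.1 i).integrable_of_hasCompactSupport ?_
  exact h.2.1.fderiv_apply ℝ _

lemma pd_sub {ψ ψ' : E N → ℝ} (h : ContDiff ℝ ∞ ψ) (h' : ContDiff ℝ ∞ ψ') (i : Fin N) (x : E N) :
    pd i (fun y => ψ y - ψ' y) x = pd i ψ x - pd i ψ' x := by
  unfold pd
  rw [fderiv_fun_sub ((h.differentiable (by simp)) x) ((h'.differentiable (by simp)) x)]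
  rfl

lemma cci_sub {ψ ψ' : E N → ℝ} (h : Cci Ω ψ) (h' : Cci Ω ψ') : Cci Ω fun y => ψ y - ψ' y := by
  refine ⟨h.1.sub h'.1, h.2.1.sub h'.2.1, ?_⟩
  exact (tsupport_sub ψ ψ').trans (Set.union_subset h.2.2 h'.2.2)

lemma bound (a a' b b' c : E N → ℝ) (ha : IntegrableOn a Ω) (ha' : IntegrableOn a' Ω)
    (hb : IntegrableOn b Ω) (hb' : IntegrableOn b' Ω) (hc : IntegrableOn c Ω)
    (hw : ∀ᵐ x ∂(volume.restrict Ω), c x = b x - b' x) :
    ∫ x in Ω, |a x - a' x - c x| ≤ (∫ x in Ω, |a x - b x|) + ∫ x in Ω, |a' x - b' x| := by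
  have i1 : Integrable (fun x => |a x - b x|) (volume.restrict Ω) := (ha.sub hb).abs
  have i2 : Integrable (fun x => |a' x - b' x|) (volume.restrict Ω) := (ha'.sub hb').abs
  have i3 : Integrable (fun x => |a x - a' x - c x|) (volume.restrict Ω) := ((ha.sub ha').sub hc).abs
  rw [← integral_add i1 i2]
  refine integral_mono_ae i3 (i1.add i2) ?_
  filter_upwards [hw] with x hx
  show |a x - a' x - c x| ≤ |a x - b x| + |a' x - b' x|
  rw [hx]
  have : a x - a' x - (b x - b' x) = (a x - b x) - (a' x - b' x) := by ring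
  rw [this]
  exact abs_sub _ _

theorem t : StWsp := by
  rintro N Ω v v' w hΩ ⟨hv, g, φ, hφ, hg, h1, h2⟩ ⟨hv', g', φ', hφ', hg', h1', h2'⟩ hw
  have hwi : IntegrableOn w Ω := (hv.sub hv').congr (by
    filter_upwards [hw] with x hx
    exact hx.symm)
  refine ⟨hwi, fun i x => g i x - g' i x, fun k x => φ k x - φ' k x, fun k => cci_sub (hφ k) (hφ' k),
    fun i => (hg i).sub (hg' i), ?_, ?_⟩
  · have h3 := h1.add h1'
    rw [add_zero] at h3
    refine squeeze_zero (fun k => integral_nonneg fun x => abs_nonneg _) (fun k => ?_) h3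
    exact bound (φ k) (φ' k) v v' w (int_cci (hφ k)).integrableOn (int_cci (hφ' k)).integrableOn hv hv'
      hwi hw
  · intro i
    have h3 := (h2 i).add (h2' i)
    rw [add_zero] at h3
    refine squeeze_zero (fun k => integral_nonneg fun x => abs_nonneg _) (fun k => ?_) h3
    simp_rw [pd_sub (hφ k).1 (hφ' k).1]
    exact bound (pd i (φ k)) (pd i (φ' k)) (g i) (g' i) _ (int_pd (hφ k) i).integrableOn
      (int_pd (hφ' k) i).integrableOn (hg i) (hg' i) ((hg i).sub (hg' i))
      (Eventually.of_forall fun x => rfl)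

end Pool.Agent.K7.H85.PDWSP
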