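import Pool.Agent.K7.H16.SG.Stm

set_option autoImplicit false

/-! Project SG (helper16), job F0 (helper85). -/

namespace Pool.Agent.K7.H85.SGF0

open Pool.Agent.K7.H16.SG

theorem t (hS : StS) (hW : StW) : StF0 := by
  intro w hw hf hne
  obtain ⟨s0, s1, s2⟩ := hS
  obtain ⟨w1, -, -, -⟩ := hW
  unfold f at hf
  obtain ⟨v, hv⟩ := Finset.card_ne_zero.1 hf
  rw [Finset.mem_filter, w1] at hv
  obtain ⟨⟨hvn, -⟩, hsv⟩ := hv
  have hv0 : v ≠ [] := by
    rintro rfl
    rw [s0] at hsv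
    exact hne hsv.symm
  obtain ⟨b, hb⟩ := List.exists_mem_of_ne_nil v hv0
  obtain ⟨m, hm, hmax⟩ := Finset.exists_max_image v.toFinset id ⟨b, List.mem_toFinset.2 hb⟩
  rw [List.mem_toFinset] at hm
  have hmax' : ∀ x ∈ v, x ≤ m := fun x hx => hmax x (List.mem_toFinset.2 hx)
  obtain ⟨L, R, rfl⟩ := List.append_of_mem hm
  have hnd := hvn
  rw [List.nodup_append] at hnd
  obtain ⟨hL, hR', hd⟩ := hnd
  rw [List.nodup_cons] at hR'
  obtain ⟨hmR, hR⟩ := hR'
  have hlt : ∀ a ∈ L ++ R, a < m := by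
    intro a ha
    rw [List.mem_append] at ha
    rcases ha with h | h
    · refine lt_of_le_of_ne (hmax' a (by simp [h])) ?_
      exact hd a h m (by simp)
    · refine lt_of_le_of_ne (hmax' a (by simp [h])) ?_
      rintro rfl
      exact hmR h
  refine ⟨s L ++ s R, m, ?_, ?_⟩
  · rw [← hsv, s1 L R m hlt]
  · intro a ha
    rw [List.mem_append] at ha
    rcases ha with h | h
    · exact hlt a (List.mem_append.2 (Or.inl ((s2 L hL).mem_iff.1 h)))
    · exact hlt a (List.mem_append.2 (Or.inr ((s2 R hR).mem_iff.1 h)))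

end Pool.Agent.K7.H85.SGF0
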